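import Pool.Agent.helper24.IC.Spec

set_option autoImplicit false

namespace Pool.Agent.IC

universe u

theorem REG : REG_stmt.{u} := by
  intro A _ _ a
  obtain ⟨L, hL⟩ := exists_isCompl (Submodule.span A ({a} : Set A))
  have h1 : (1 : A) ∈ Submodule.span A ({a} : Set A) ⊔ L := by
    rw [hL.sup_eq_top]
    exact Submodule.mem_top
  obtain ⟨x, hx, b, hb, hxb⟩ := Submodule.mem_sup.mp h1
  obtain ⟨t, ht⟩ := Submodule.mem_span_singleton.mp hx
  have ht' : t * a = x := ht
  refine ⟨t, ?_⟩
  have h2 : a * x + a * b = a := by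
    rw [← mul_add, hxb, mul_one]
  have h3 : a * b ∈ Submodule.span A ({a} : Set A) := by
    have h4 : a * b = a - a * x := by
      rw [eq_sub_iff_add_eq, add_comm]
      exact h2
    rw [h4]
    apply Submodule.sub_mem
    · exact Submodule.mem_span_singleton_self a
    · exact Submodule.smul_mem _ a hx
  have h5 : a * b ∈ L := Submodule.smul_mem L a hb
  have h6 : a * b = 0 := by
    have h7 : a * b ∈ Submodule.span A ({a} : Set A) ⊓ L := ⟨h3, h5⟩
    rw [hL.inf_eq_bot] at h7
    exact (Submodule.mem_bot A).mp h7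
  rw [h6, add_zero] at h2
  rw [mul_assoc, ht', h2]

end Pool.Agent.IC
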